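import Mathlib
import Pool.Agent.W827.BW.Fin

set_option autoImplicit false

open MeasureTheory ProbabilityTheory Filter Topology

namespace Pool.Agent.Results.MP_92f966_pr.PcNearOne

/-! ### Definitions used in the statement -/

/-- `G` is drawn in the plane as a triangulation.  The vertices are distinct points `φ v` of the
plane, every edge `uv` is drawn as a simple arc `γ u v` from `φ u` to `φ v` (the same arc for `uv`
and `vu`), an arc contains no vertex besides its endpoints, two different arcs meet only at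
vertices, every compact set meets only finitely many arcs, and every face, i.e. every connected
component of the complement of the drawing, has as its boundary the union of the three arcs of a
triangle of `G`. -/
def IsPlaneTriangulation {V : Type} (G : SimpleGraph V) : Prop :=
  ∃ (φ : V → ℂ) (γ : V → V → ℝ → ℂ),
    Function.Injective φ ∧
    (∀ u v, G.Adj u v → ContinuousOn (γ u v) (Set.Icc 0 1) ∧ Set.InjOn (γ u v) (Set.Icc 0 1) ∧
        γ u v 0 = φ u ∧ γ u v 1 = φ v ∧ γ u v '' Set.Icc 0 1 = γ v u '' Set.Icc 0 1) ∧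
    (∀ u v w, G.Adj u v → ∀ s ∈ Set.Icc (0:ℝ) 1, γ u v s = φ w → w = u ∨ w = v) ∧
    (∀ u v x y, G.Adj u v → G.Adj x y → ∀ s ∈ Set.Icc (0:ℝ) 1, ∀ t ∈ Set.Icc (0:ℝ) 1,
        γ u v s = γ x y t → (u = x ∧ v = y) ∨ (u = y ∧ v = x) ∨ ∃ w, γ u v s = φ w) ∧
    (∀ K : Set ℂ, IsCompact K →
        {p : V × V | G.Adj p.1 p.2 ∧ (γ p.1 p.2 '' Set.Icc 0 1 ∩ K).Nonempty}.Finite) ∧
    (∀ z : ℂ, (∀ u v, G.Adj u v → z ∉ γ u v '' Set.Icc 0 1) →
        ∃ a b c, G.Adj a b ∧ G.Adj b c ∧ G.Adj c a ∧
          frontier (connectedComponentIn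
              {y : ℂ | ∀ u v, G.Adj u v → y ∉ γ u v '' Set.Icc 0 1} z) =
            γ a b '' Set.Icc 0 1 ∪ γ b c '' Set.Icc 0 1 ∪ γ c a '' Set.Icc 0 1)

/-- The boundary `∂A`: the edges with exactly one endpoint in `A`, each listed once as the pair
(endpoint in `A`, endpoint outside `A`). -/
def edgeBoundary {V : Type} (G : SimpleGraph V) (A : Set V) : Set (V × V) :=
  {p | p.1 ∈ A ∧ p.2 ∉ A ∧ G.Adj p.1 p.2}

/-- The isoperimetric assumption (I): there is a function `f : ℕ → [0, ∞)` with `f n → ∞` such
that `|∂A| ≥ f(|A|) log |A|` for every finite set `A` of vertices. -/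
def IsoGrowth {V : Type} (G : SimpleGraph V) : Prop :=
  ∃ f : ℕ → ℝ, (∀ n, 0 ≤ f n) ∧ Tendsto f atTop atTop ∧
    ∀ A : Set V, A.Finite → f A.ncard * Real.log A.ncard ≤ ((edgeBoundary G A).ncard : ℝ)

/-- The law of Bernoulli site percolation with parameter `p`: the sites are independent, each is
open (`true`) with probability `p`. -/
noncomputable def siteMeasure (V : Type) (p : unitInterval) : Measure (V → Bool) :=
  Measure.infinitePi (fun _ : V => bernoulliMeasure true false p)

/-- There is an infinite connected set of open vertices, i.e. an infinite open cluster. -/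
def HasInfiniteOpenCluster {V : Type} (G : SimpleGraph V) (ω : V → Bool) : Prop :=
  ∃ S : Set V, S.Infinite ∧ (∀ v ∈ S, ω v = true) ∧ (G.induce S).Connected

/-- The critical probability of site percolation: the infimum of the `p` for which an infinite
open cluster exists with positive probability. -/
noncomputable def criticalProbability {V : Type} (G : SimpleGraph V) : ℝ :=
  sInf {p : ℝ | ∃ h : p ∈ Set.Icc (0 : ℝ) 1,
    0 < siteMeasure V ⟨p, h⟩ {ω | HasInfiniteOpenCluster G ω}}

/-- **Negative answer to Q1.** For every `p₀ < 1` there is a bounded degree plane triangulation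
satisfying the isoperimetric assumption (I) whose critical probability for site percolation is at
least `p₀` (and already at `p₀` there is almost surely no infinite open cluster).  In particular
(`p₀ = 3/4`) the bound `p_c ≤ 1/2` fails. -/
theorem result : ∀ p₀ : ℝ, p₀ < 1 → ∃ (V : Type) (G : SimpleGraph V),
    Countable V ∧ Infinite V ∧ G.Connected ∧
    (∃ Δ : ℕ, ∀ v : V, (G.neighborSet v).Finite ∧ (G.neighborSet v).ncard ≤ Δ) ∧
    IsPlaneTriangulation G ∧ IsoGrowth G ∧
    (∀ p : unitInterval, (p : ℝ) ≤ p₀ →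
      siteMeasure V p {ω | HasInfiniteOpenCluster G ω} = 0) ∧
    p₀ ≤ criticalProbability G := by
  intro p₀ hp₀
  obtain ⟨G, h1, h2, h3, h4, h5, h6⟩ := Pool.Agent.W827.BW.final p₀ hp₀
  exact ⟨ℤ × ℤ, G, inferInstance, inferInstance, h1, h2, h3, h4, h5, h6⟩

end Pool.Agent.Results.MP_92f966_pr.PcNearOne
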